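import Pool.Agent.Lib.MP_dde2f1_nt.Tuple

/-!
# Averages of the singular factor `n / φ(n)` along `3 q ± 1`, `q` prime
-/

set_option autoImplicit false

open Finset

namespace Pool.Agent.Lib.MP_3063eb_nt

open Pool.Agent.Lib.MP_dde2f1_nt.Sieve

/-- `n / φ(n)` -/
noncomputable def rr (n : ℕ) : ℝ := (n : ℝ) / n.totient

lemma rr_eq (n : ℕ) (hn : 0 < n) : rr n = ∏ p ∈ n.primeFactors, (1 - (p : ℝ)⁻¹)⁻¹ := by
  rw [inv_ratio n hn]
  rfl

lemma fac_ge_one (p : ℕ) (hp : p.Prime) : 1 ≤ (1 - (p : ℝ)⁻¹)⁻¹ := by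
  have h2 : (2 : ℝ) ≤ p := by exact_mod_cast hp.two_le
  have h0 : (0 : ℝ) < (p : ℝ)⁻¹ := by positivity
  have h1 : (p : ℝ)⁻¹ ≤ 2⁻¹ := inv_anti₀ (by norm_num) h2
  exact (one_le_inv₀ (by linarith)).2 (by linarith)

lemma fac_le_two (p : ℕ) (hp : p.Prime) : (1 - (p : ℝ)⁻¹)⁻¹ ≤ 2 := by
  have h2 : (2 : ℝ) ≤ p := by exact_mod_cast hp.two_le
  have h1 : (p : ℝ)⁻¹ ≤ 2⁻¹ := inv_anti₀ (by norm_num) h2
  have h3 : (2 : ℝ)⁻¹ ≤ 1 - (p : ℝ)⁻¹ := by linarith
  have := inv_anti₀ (by norm_num) h3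
  simpa using this

lemma rr_ge_one (n : ℕ) (hn : 0 < n) : 1 ≤ rr n := by
  rw [rr_eq n hn]
  apply Finset.one_le_prod
  intro p hp
  exact fac_ge_one p (Nat.prime_of_mem_primeFactors hp)

lemma rr_mono {m n : ℕ} (hm : 0 < m) (hn : 0 < n) (h : m.primeFactors ⊆ n.primeFactors) :
    rr m ≤ rr n := by
  rw [rr_eq m hm, rr_eq n hn]
  apply Finset.prod_le_prod_of_subset_of_one_le h
  · intro p hp
    have := fac_ge_one p (Nat.prime_of_mem_primeFactors hp)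
    linarith
  · intro p hp _
    exact fac_ge_one p (Nat.prime_of_mem_primeFactors hp)

lemma rr_mul_le {m n : ℕ} (hm : 0 < m) (hn : 0 < n) : rr (m * n) ≤ rr m * rr n := by
  unfold rr
  have h1 : (0 : ℝ) < m.totient := by exact_mod_cast Nat.totient_pos.2 hm
  have h2 : (0 : ℝ) < n.totient := by exact_mod_cast Nat.totient_pos.2 hn
  have h3 : ((m.totient : ℝ) * n.totient) ≤ (m * n).totient := by
    exact_mod_cast Nat.totient_super_multiplicative m n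
  rw [div_mul_div_comm]
  push_cast
  gcongr

/-- comparison of `(n / φ(n)) ^ 6` with a product over the primes dividing `n` -/
lemma rr_pow_le (P : ℕ) (f : ℕ → ℝ) (hf1 : ∀ p, p.Prime → 1 ≤ f p)
    (hf : ∀ p, p.Prime → P ≤ p → ((1 - (p : ℝ)⁻¹)⁻¹) ^ 6 ≤ f p) (n : ℕ) (hn : 0 < n) :
    (rr n) ^ 6 ≤ 64 ^ P * ∏ p ∈ n.primeFactors, f p := by
  classical
  rw [rr_eq n hn, ← Finset.prod_pow]
  have h1 : ∏ p ∈ n.primeFactors, ((1 - (p : ℝ)⁻¹)⁻¹) ^ 6 ≤
      ∏ p ∈ n.primeFactors, ((if p < P then (64 : ℝ) else 1) * f p) := by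
    apply Finset.prod_le_prod
    · intro p hp
      have := fac_ge_one p (Nat.prime_of_mem_primeFactors hp)
      positivity
    · intro p hp
      have hpp := Nat.prime_of_mem_primeFactors hp
      have ha := fac_ge_one p hpp
      have hb := fac_le_two p hpp
      split_ifs with h
      · calc ((1 - (p : ℝ)⁻¹)⁻¹) ^ 6 ≤ 2 ^ 6 := by gcongr
          _ = 64 * 1 := by norm_num
          _ ≤ 64 * f p := by
              have := hf1 p hpp
              linarith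
      · rw [one_mul]
        exact hf p hpp (not_lt.1 h)
  refine h1.trans ?_
  rw [Finset.prod_mul_distrib]
  have h2 : ∏ p ∈ n.primeFactors, (if p < P then (64 : ℝ) else 1) ≤ 64 ^ P := by
    rw [← Finset.prod_filter, Finset.prod_const]
    apply pow_le_pow_right₀ (by norm_num)
    calc ((n.primeFactors).filter (fun p => p < P)).card ≤ (range P).card := by
          apply Finset.card_le_card
          intro p hp
          rw [Finset.mem_filter] at hp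
          exact Finset.mem_range.2 hp.2
      _ = P := Finset.card_range P
  have h3 : 0 ≤ ∏ p ∈ n.primeFactors, f p := by
    apply Finset.prod_nonneg
    intro p hp
    have := hf1 p (Nat.prime_of_mem_primeFactors hp)
    linarith
  exact mul_le_mul_of_nonneg_right h2 h3

/-- `∏ (1 + p ^ (-3/4))` is at most the sum of `d ^ (-3/4)` over the divisors -/
lemma prod_le_sum_divisors (n : ℕ) (hn : 0 < n) :
    ∏ p ∈ n.primeFactors, (1 + (p : ℝ) ^ (-(3 / 4) : ℝ)) ≤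
      ∑ d ∈ n.divisors, (d : ℝ) ^ (-(3 / 4) : ℝ) := by
  classical
  rw [Finset.prod_one_add]
  have h1 : ∀ t ∈ n.primeFactors.powerset, ∏ p ∈ t, (p : ℝ) ^ (-(3 / 4) : ℝ) =
      ((∏ p ∈ t, p : ℕ) : ℝ) ^ (-(3 / 4) : ℝ) := by
    intro t _
    rw [Real.finsetProd_rpow]
    · push_cast
      rfl
    · intro i _
      positivity
  rw [Finset.sum_congr rfl h1]
  have hinj : Set.InjOn (fun t : Finset ℕ => ∏ p ∈ t, p) (n.primeFactors.powerset : Set (Finset ℕ)) := by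
    intro s hs t ht hst
    simp only [Finset.coe_powerset, Set.mem_preimage, Set.mem_powerset_iff, Finset.coe_subset] at hs ht
    have hs' := Nat.primeFactors_prod (s := s) (fun p hp => Nat.prime_of_mem_primeFactors (hs hp))
    have ht' := Nat.primeFactors_prod (s := t) (fun p hp => Nat.prime_of_mem_primeFactors (ht hp))
    simp only at hst
    rw [← hs', ← ht', hst]
  have h2 : ∑ t ∈ n.primeFactors.powerset, ((∏ p ∈ t, p : ℕ) : ℝ) ^ (-(3 / 4) : ℝ) =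
      ∑ d ∈ n.primeFactors.powerset.image (fun t => ∏ p ∈ t, p), (d : ℝ) ^ (-(3 / 4) : ℝ) := by
    rw [Finset.sum_image hinj]
  rw [h2]
  apply Finset.sum_le_sum_of_subset_of_nonneg
  · intro d hd
    rw [Finset.mem_image] at hd
    obtain ⟨t, ht, rfl⟩ := hd
    rw [Finset.mem_powerset] at ht
    rw [Nat.mem_divisors]
    exact ⟨(Finset.prod_dvd_prod_of_subset _ _ _ ht).trans (Nat.prod_primeFactors_dvd n), by omega⟩
  · intro d _ _
    positivity

/-- the factor at a large prime -/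
lemma fac_large (p : ℕ) (hp : 28561 ≤ p) :
    ((1 - (p : ℝ)⁻¹)⁻¹) ^ 6 ≤ 1 + (p : ℝ) ^ (-(3 / 4) : ℝ) := by
  have hpR : (28561 : ℝ) ≤ p := by exact_mod_cast hp
  have hp0 : (0 : ℝ) < p := by linarith
  set x : ℝ := ((p : ℝ) - 1)⁻¹ with hx
  have hx0 : 0 < x := by
    rw [hx]
    have : (0 : ℝ) < (p : ℝ) - 1 := by linarith
    positivity
  have hx8 : x ≤ 1 / 8 := by
    rw [hx]
    have : (8 : ℝ) ≤ (p : ℝ) - 1 := by linarith
    calc ((p : ℝ) - 1)⁻¹ ≤ 8⁻¹ := inv_anti₀ (by norm_num) this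
      _ = 1 / 8 := by norm_num
  have h1 : (1 - (p : ℝ)⁻¹)⁻¹ = 1 + x := by
    rw [hx]
    have h3 : (p : ℝ) - 1 ≠ 0 := by linarith
    field_simp
    ring
  rw [h1]
  have h2 : (1 + x) ^ 6 ≤ 1 + 12 * x := by
    nlinarith [mul_pos hx0 hx0, pow_pos hx0 3, pow_pos hx0 4, pow_pos hx0 5, pow_pos hx0 6,
      mul_nonneg (sub_nonneg.2 hx8) hx0.le, mul_nonneg (sub_nonneg.2 hx8) (pow_pos hx0 2).le,
      mul_nonneg (sub_nonneg.2 hx8) (pow_pos hx0 3).le, mul_nonneg (sub_nonneg.2 hx8) (pow_pos hx0 4).le,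
      mul_nonneg (sub_nonneg.2 hx8) (pow_pos hx0 5).le]
  refine h2.trans ?_
  have h13 : (13 : ℝ) ≤ (p : ℝ) ^ (1 / 4 : ℝ) := by
    have : (13 : ℝ) = ((28561 : ℝ)) ^ (1 / 4 : ℝ) := by
      rw [show (28561 : ℝ) = 13 ^ (4 : ℕ) by norm_num, ← Real.rpow_natCast, ← Real.rpow_mul (by norm_num)]
      norm_num
    rw [this]
    exact Real.rpow_le_rpow (by norm_num) hpR (by norm_num)
  have h4 : (p : ℝ) ^ (-(3 / 4) : ℝ) = (p : ℝ) ^ (1 / 4 : ℝ) * (p : ℝ)⁻¹ := by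
    rw [← Real.rpow_neg_one, ← Real.rpow_add hp0]
    norm_num
  have h5 : 12 * x ≤ 13 * (p : ℝ)⁻¹ := by
    rw [hx]
    have h3 : (0 : ℝ) < (p : ℝ) - 1 := by linarith
    rw [← div_eq_mul_inv, ← div_eq_mul_inv, div_le_div_iff₀ h3 hp0]
    linarith
  rw [h4]
  have h6 : 13 * (p : ℝ)⁻¹ ≤ (p : ℝ) ^ (1 / 4 : ℝ) * (p : ℝ)⁻¹ := by gcongr
  linarith

/-- the sixth power of `n / φ(n)` is at most a constant times `∑_{d ∣ n} d ^ (-3/4)` -/
lemma rr_le_sum (n : ℕ) (hn : 0 < n) :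
    (rr n) ^ 6 ≤ 64 ^ 28561 * ∑ d ∈ n.divisors, (d : ℝ) ^ (-(3 / 4) : ℝ) := by
  have h := rr_pow_le 28561 (fun p => 1 + (p : ℝ) ^ (-(3 / 4) : ℝ))
    (fun p _ => by
      have : (0 : ℝ) ≤ (p : ℝ) ^ (-(3 / 4) : ℝ) := by positivity
      linarith)
    (fun p _ hP => fac_large p hP) n hn
  refine h.trans ?_
  have h1 := prod_le_sum_divisors n hn
  exact mul_le_mul_of_nonneg_left h1 (by positivity)

/-- a weak bound for `n / φ(n)` -/
lemma rr_le_sqrt (n : ℕ) (hn : 0 < n) : rr n ≤ 64 ^ 4096 * (n : ℝ) ^ (1 / 2 : ℝ) := by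
  have h := rr_pow_le 4096 (fun p => (p : ℝ) ^ (1 / 2 : ℝ))
    (fun p hp => by
      have : (1 : ℝ) ≤ p := by exact_mod_cast hp.one_lt.le
      exact Real.one_le_rpow this (by norm_num))
    (fun p hp hP => by
      have ha := fac_ge_one p hp
      have hb := fac_le_two p hp
      have hpR : (4096 : ℝ) ≤ p := by exact_mod_cast hP
      have h64 : (64 : ℝ) = (4096 : ℝ) ^ (1 / 2 : ℝ) := by
        rw [show (4096 : ℝ) = 64 ^ (2 : ℕ) by norm_num, ← Real.rpow_natCast, ← Real.rpow_mul (by norm_num)]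
        norm_num
      calc ((1 - (p : ℝ)⁻¹)⁻¹) ^ 6 ≤ 2 ^ 6 := by gcongr
        _ = 64 := by norm_num
        _ = (4096 : ℝ) ^ (1 / 2 : ℝ) := h64
        _ ≤ (p : ℝ) ^ (1 / 2 : ℝ) := Real.rpow_le_rpow (by norm_num) hpR (by norm_num))
    n hn
  have h1 : rr n ≤ (rr n) ^ 6 := by
    have := rr_ge_one n hn
    exact le_self_pow₀ this (by norm_num)
  have h2 : ∏ p ∈ n.primeFactors, (p : ℝ) ^ (1 / 2 : ℝ) ≤ (n : ℝ) ^ (1 / 2 : ℝ) := by
    rw [Real.finsetProd_rpow _ _ (fun i _ => by positivity)]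
    apply Real.rpow_le_rpow
    · positivity
    · have := Nat.le_of_dvd hn (Nat.prod_primeFactors_dvd n)
      have h3 : ((∏ p ∈ n.primeFactors, p : ℕ) : ℝ) ≤ n := by exact_mod_cast this
      rwa [Nat.cast_prod] at h3
    · norm_num
  calc rr n ≤ (rr n) ^ 6 := h1
    _ ≤ 64 ^ 4096 * ∏ p ∈ n.primeFactors, (p : ℝ) ^ (1 / 2 : ℝ) := h
    _ ≤ _ := mul_le_mul_of_nonneg_left h2 (by positivity)

end Pool.Agent.Lib.MP_3063eb_nt
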