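import Pool.Agent.Lib.MP_3063eb_nt.Avg

/-!
# The average over primes of `∑_{d ∣ u(q)} d ^ (-3/4)`
-/

set_option autoImplicit false

open Finset

namespace Pool.Agent.Lib.MP_3063eb_nt

open Pool.Agent.Lib.MP_dde2f1_nt.Sieve

/-- all integers `q ≤ y` with `d ∣ u q` -/
lemma count_all (u : ℕ → ℕ)
    (hu : ∀ d q q' : ℕ, 1 ≤ q → 1 ≤ q' → d ∣ u q → d ∣ u q' → q ≡ q' [MOD d])
    (y d : ℕ) (hd : 0 < d) (hdy : d ≤ 4 * y) :
    ((((Icc 1 y).filter Nat.Prime).filter (fun q => d ∣ u q)).card : ℝ) ≤ 5 * (y : ℝ) / d := by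
  classical
  have hdR : (0 : ℝ) < d := by exact_mod_cast hd
  have hdy' : (d : ℝ) ≤ 4 * y := by exact_mod_cast hdy
  rcases (((Icc 1 y).filter Nat.Prime).filter (fun q => d ∣ u q)).eq_empty_or_nonempty with h | ⟨a, ha⟩
  · rw [h]
    simp only [Finset.card_empty, Nat.cast_zero]
    positivity
  · rw [mem_filter, mem_filter, mem_Icc] at ha
    have hsub : ((Icc 1 y).filter Nat.Prime).filter (fun q => d ∣ u q) ⊆
        (Icc 1 y).filter (fun m => m ≡ a [MOD d]) := by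
      intro q hq
      rw [mem_filter, mem_filter, mem_Icc] at hq
      rw [mem_filter, mem_Icc]
      exact ⟨hq.1.1, hu d q a hq.1.1.1 ha.1.1.1 hq.2 ha.2⟩
    have h1 : ((((Icc 1 y).filter Nat.Prime).filter (fun q => d ∣ u q)).card : ℝ) ≤
        (((Icc 1 y).filter (fun m => m ≡ a [MOD d])).card : ℝ) := by
      exact_mod_cast Finset.card_le_card hsub
    have h2 := (abs_le.1 (count_ap y d a hd)).2
    have h3 : (1 : ℝ) ≤ 4 * y / d := by
      rw [le_div_iff₀ hdR]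
      linarith
    have h4 : 5 * (y : ℝ) / d = y / d + 4 * y / d := by ring
    linarith

/-- **average over primes** -/
theorem avg (u : ℕ → ℕ) (hu0 : ∀ q, 1 ≤ q → 0 < u q) (hu4 : ∀ q, 1 ≤ q → u q ≤ 4 * q)
    (hu : ∀ d q q' : ℕ, 1 ≤ q → 1 ≤ q' → d ∣ u q → d ∣ u q' → q ≡ q' [MOD d]) :
    ∃ C : ℝ, 0 < C ∧ ∀ y : ℕ, 2 ≤ y →
      ∑ q ∈ (Icc 1 y).filter Nat.Prime, ∑ d ∈ (u q).divisors, (d : ℝ) ^ (-(3 / 4) : ℝ) ≤
        C * ((y : ℝ) / Real.log y) := by
  classical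
  obtain ⟨N₁, hN₁, hbt⟩ := bt
  obtain ⟨N₂, hN₂, hlog⟩ := log_le_rpow
  set N₀ := max N₁ N₂ with hN₀
  set Z₁ : ℝ := ∑' n : ℕ, (n : ℝ) ^ (-(5 / 4) : ℝ) with hZ₁
  set Z₂ : ℝ := ∑' n : ℕ, (n : ℝ) ^ (-(3 / 2) : ℝ) with hZ₂
  have hs₁ : Summable (fun n : ℕ => (n : ℝ) ^ (-(5 / 4) : ℝ)) :=
    Real.summable_nat_rpow.2 (by norm_num)
  have hs₂ : Summable (fun n : ℕ => (n : ℝ) ^ (-(3 / 2) : ℝ)) :=
    Real.summable_nat_rpow.2 (by norm_num)
  have hZ₁0 : 0 ≤ Z₁ := tsum_nonneg (fun n => by positivity)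
  have hZ₂0 : 0 ≤ Z₂ := tsum_nonneg (fun n => by positivity)
  set M : ℝ := ∑ q ∈ (Icc 1 N₀).filter Nat.Prime, ∑ d ∈ (u q).divisors, (d : ℝ) ^ (-(3 / 4) : ℝ) with hM
  have hM0 : 0 ≤ M := Finset.sum_nonneg (fun q _ => Finset.sum_nonneg (fun d _ => by positivity))
  refine ⟨10 * 64 ^ 4096 * Z₁ + 5 * Z₂ + M + 1, by positivity, ?_⟩
  intro y hy
  have hyR : (2 : ℝ) ≤ y := by exact_mod_cast hy
  have hy0 : (0 : ℝ) < y := by linarith
  have hlogpos : 0 < Real.log y := Real.log_pos (by linarith)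
  have hone : 1 ≤ (y : ℝ) / Real.log y := by
    rw [le_div_iff₀ hlogpos, one_mul]
    have := Real.log_le_sub_one_of_pos hy0
    linarith
  have hyl0 : 0 ≤ (y : ℝ) / Real.log y := by positivity
  rcases lt_or_ge y N₀ with hlt | hge
  · -- small `y`
    have h1 : ∑ q ∈ (Icc 1 y).filter Nat.Prime, ∑ d ∈ (u q).divisors, (d : ℝ) ^ (-(3 / 4) : ℝ) ≤ M := by
      rw [hM]
      apply Finset.sum_le_sum_of_subset_of_nonneg
      · intro q hq
        rw [mem_filter, mem_Icc] at hq ⊢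
        exact ⟨⟨hq.1.1, by omega⟩, hq.2⟩
      · intro q _ _
        exact Finset.sum_nonneg (fun d _ => by positivity)
    refine h1.trans ?_
    have h2 : M * 1 ≤ M * ((y : ℝ) / Real.log y) := mul_le_mul_of_nonneg_left hone hM0
    have h3 : 0 ≤ (10 * 64 ^ 4096 * Z₁ + 5 * Z₂ + 1) * ((y : ℝ) / Real.log y) := by positivity
    nlinarith
  · -- large `y`
    have hyN₁ : N₁ ≤ y := (le_max_left _ _).trans hge
    have hyN₂ : N₂ ≤ y := (le_max_right _ _).trans hge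
    have hly := hlog y hyN₂
    -- swap the sums
    have hswap : ∑ q ∈ (Icc 1 y).filter Nat.Prime, ∑ d ∈ (u q).divisors, (d : ℝ) ^ (-(3 / 4) : ℝ) =
        ∑ d ∈ Icc 1 (4 * y), (d : ℝ) ^ (-(3 / 4) : ℝ) *
          ((((Icc 1 y).filter Nat.Prime).filter (fun q => d ∣ u q)).card : ℝ) := by
      have h1 : ∀ q ∈ (Icc 1 y).filter Nat.Prime, ∑ d ∈ (u q).divisors, (d : ℝ) ^ (-(3 / 4) : ℝ) =
          ∑ d ∈ Icc 1 (4 * y), if d ∣ u q then (d : ℝ) ^ (-(3 / 4) : ℝ) else 0 := by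
        intro q hq
        rw [mem_filter, mem_Icc] at hq
        rw [← Finset.sum_filter]
        apply Finset.sum_congr _ (fun _ _ => rfl)
        ext d
        rw [Nat.mem_divisors, mem_filter, mem_Icc]
        have h0 := hu0 q hq.1.1
        have h4 := hu4 q hq.1.1
        constructor
        · rintro ⟨h, _⟩
          have := Nat.le_of_dvd h0 h
          exact ⟨⟨Nat.pos_of_dvd_of_pos h h0, by omega⟩, h⟩
        · rintro ⟨_, h⟩
          exact ⟨h, by omega⟩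
      rw [Finset.sum_congr rfl h1, Finset.sum_comm]
      apply Finset.sum_congr rfl
      intro d _
      rw [← Finset.sum_filter, Finset.sum_const, nsmul_eq_mul, mul_comm]
    rw [hswap]
    -- the bound for each `d`
    have hterm : ∀ d ∈ Icc 1 (4 * y), (d : ℝ) ^ (-(3 / 4) : ℝ) *
          ((((Icc 1 y).filter Nat.Prime).filter (fun q => d ∣ u q)).card : ℝ) ≤
        (10 * 64 ^ 4096 * ((y : ℝ) / Real.log y)) * (d : ℝ) ^ (-(5 / 4) : ℝ) +
          (5 * ((y : ℝ) / Real.log y)) * (d : ℝ) ^ (-(3 / 2) : ℝ) := by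
      intro d hd
      rw [mem_Icc] at hd
      have hd0 : 0 < d := by omega
      have hdR : (0 : ℝ) < d := by exact_mod_cast hd0
      have hg0 : 0 ≤ (d : ℝ) ^ (-(3 / 4) : ℝ) := by positivity
      rcases le_or_gt (d * d) y with hdd | hdd
      · -- Brun–Titchmarsh
        have hcard : ((((Icc 1 y).filter Nat.Prime).filter (fun q => d ∣ u q)).card : ℝ) ≤
            10 * (y : ℝ) / (d.totient * Real.log y) := by
          rcases (((Icc 1 y).filter Nat.Prime).filter (fun q => d ∣ u q)).eq_empty_or_nonempty with h | ⟨a, ha⟩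
          · rw [h]
            simp only [Finset.card_empty, Nat.cast_zero]
            positivity
          · rw [mem_filter, mem_filter, mem_Icc] at ha
            have hsub : ((Icc 1 y).filter Nat.Prime).filter (fun q => d ∣ u q) ⊆
                (Icc 1 y).filter (fun p => p.Prime ∧ p ≡ a [MOD d]) := by
              intro q hq
              rw [mem_filter, mem_filter, mem_Icc] at hq
              rw [mem_filter, mem_Icc]
              exact ⟨hq.1.1, hq.1.2, hu d q a hq.1.1.1 ha.1.1.1 hq.2 ha.2⟩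
            refine le_trans ?_ (hbt y hyN₁ d a hd0 hdd)
            exact_mod_cast Finset.card_le_card hsub
        have htot : (0 : ℝ) < d.totient := by exact_mod_cast Nat.totient_pos.2 hd0
        have hrr : (d.totient : ℝ)⁻¹ ≤ 64 ^ 4096 * (d : ℝ) ^ (-(1 / 2) : ℝ) := by
          have h := rr_le_sqrt d hd0
          unfold rr at h
          have h5 : (d.totient : ℝ)⁻¹ = ((d : ℝ) / d.totient) * (d : ℝ)⁻¹ := by field_simp
          have h6 : (d : ℝ) ^ (-(1 / 2) : ℝ) = (d : ℝ) ^ (1 / 2 : ℝ) * (d : ℝ)⁻¹ := by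
            rw [← Real.rpow_neg_one, ← Real.rpow_add hdR]
            norm_num
          rw [h5, h6, ← mul_assoc]
          exact mul_le_mul_of_nonneg_right h (by positivity)
        have h7 : (d : ℝ) ^ (-(5 / 4) : ℝ) = (d : ℝ) ^ (-(3 / 4) : ℝ) * (d : ℝ) ^ (-(1 / 2) : ℝ) := by
          rw [← Real.rpow_add hdR]
          norm_num
        have h8 : 0 ≤ (5 * ((y : ℝ) / Real.log y)) * (d : ℝ) ^ (-(3 / 2) : ℝ) := by positivity
        calc (d : ℝ) ^ (-(3 / 4) : ℝ) *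
              ((((Icc 1 y).filter Nat.Prime).filter (fun q => d ∣ u q)).card : ℝ)
            ≤ (d : ℝ) ^ (-(3 / 4) : ℝ) * (10 * (y : ℝ) / (d.totient * Real.log y)) :=
              mul_le_mul_of_nonneg_left hcard hg0
          _ = (10 * ((y : ℝ) / Real.log y)) * ((d : ℝ) ^ (-(3 / 4) : ℝ) * (d.totient : ℝ)⁻¹) := by
              field_simp
          _ ≤ (10 * ((y : ℝ) / Real.log y)) * ((d : ℝ) ^ (-(3 / 4) : ℝ) *
                (64 ^ 4096 * (d : ℝ) ^ (-(1 / 2) : ℝ))) := by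
              apply mul_le_mul_of_nonneg_left _ (by positivity)
              exact mul_le_mul_of_nonneg_left hrr hg0
          _ = (10 * 64 ^ 4096 * ((y : ℝ) / Real.log y)) * (d : ℝ) ^ (-(5 / 4) : ℝ) := by
              rw [h7]; ring
          _ ≤ _ := by linarith
      · -- trivial bound
        have hcard := count_all u hu y d hd0 hd.2
        have h1 : (d : ℝ) ^ (-(3 / 4) : ℝ) * (5 * (y : ℝ) / d) =
            5 * (y : ℝ) * ((d : ℝ) ^ (-(1 / 4) : ℝ) * (d : ℝ) ^ (-(3 / 2) : ℝ)) := by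
          have : (d : ℝ) ^ (-(1 / 4) : ℝ) * (d : ℝ) ^ (-(3 / 2) : ℝ) = (d : ℝ) ^ (-(3 / 4) : ℝ) * (d : ℝ)⁻¹ := by
            rw [← Real.rpow_neg_one, ← Real.rpow_add hdR, ← Real.rpow_add hdR]
            norm_num
          rw [this]
          ring
        have hdd' : (y : ℝ) < (d : ℝ) ^ (2 : ℝ) := by
          have : y < d ^ 2 := by rw [pow_two]; exact hdd
          rw [Real.rpow_two]
          exact_mod_cast this
        have h2 : (d : ℝ) ^ (-(1 / 4) : ℝ) ≤ (y : ℝ) ^ (-(1 / 8) : ℝ) := by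
          have h3 : (y : ℝ) ^ (1 / 8 : ℝ) ≤ (d : ℝ) ^ (1 / 4 : ℝ) := by
            calc (y : ℝ) ^ (1 / 8 : ℝ) ≤ ((d : ℝ) ^ (2 : ℝ)) ^ (1 / 8 : ℝ) :=
                  Real.rpow_le_rpow hy0.le hdd'.le (by norm_num)
              _ = (d : ℝ) ^ (1 / 4 : ℝ) := by
                  rw [← Real.rpow_mul hdR.le]
                  norm_num
          rw [Real.rpow_neg hdR.le, Real.rpow_neg hy0.le]
          exact inv_anti₀ (by positivity) h3
        have h4 : (y : ℝ) * (y : ℝ) ^ (-(1 / 8) : ℝ) ≤ (y : ℝ) / Real.log y := by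
          rw [Real.rpow_neg hy0.le, div_eq_mul_inv]
          apply mul_le_mul_of_nonneg_left _ hy0.le
          exact inv_anti₀ hlogpos hly
        have h8 : 0 ≤ (10 * 64 ^ 4096 * ((y : ℝ) / Real.log y)) * (d : ℝ) ^ (-(5 / 4) : ℝ) := by positivity
        have hp : 0 ≤ (d : ℝ) ^ (-(3 / 2) : ℝ) := by positivity
        calc (d : ℝ) ^ (-(3 / 4) : ℝ) *
              ((((Icc 1 y).filter Nat.Prime).filter (fun q => d ∣ u q)).card : ℝ)
            ≤ (d : ℝ) ^ (-(3 / 4) : ℝ) * (5 * (y : ℝ) / d) := mul_le_mul_of_nonneg_left hcard hg0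
          _ = 5 * (y : ℝ) * ((d : ℝ) ^ (-(1 / 4) : ℝ) * (d : ℝ) ^ (-(3 / 2) : ℝ)) := h1
          _ ≤ 5 * (y : ℝ) * ((y : ℝ) ^ (-(1 / 8) : ℝ) * (d : ℝ) ^ (-(3 / 2) : ℝ)) := by
              apply mul_le_mul_of_nonneg_left _ (by positivity)
              exact mul_le_mul_of_nonneg_right h2 hp
          _ = (5 * ((y : ℝ) * (y : ℝ) ^ (-(1 / 8) : ℝ))) * (d : ℝ) ^ (-(3 / 2) : ℝ) := by ring
          _ ≤ (5 * ((y : ℝ) / Real.log y)) * (d : ℝ) ^ (-(3 / 2) : ℝ) := by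
              apply mul_le_mul_of_nonneg_right _ hp
              linarith
          _ ≤ _ := by linarith
    refine (Finset.sum_le_sum hterm).trans ?_
    rw [Finset.sum_add_distrib, ← Finset.mul_sum, ← Finset.mul_sum]
    have hb₁ : ∑ d ∈ Icc 1 (4 * y), (d : ℝ) ^ (-(5 / 4) : ℝ) ≤ Z₁ :=
      hs₁.sum_le_tsum _ (fun n _ => by positivity)
    have hb₂ : ∑ d ∈ Icc 1 (4 * y), (d : ℝ) ^ (-(3 / 2) : ℝ) ≤ Z₂ :=
      hs₂.sum_le_tsum _ (fun n _ => by positivity)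
    have hc₁ := mul_le_mul_of_nonneg_left hb₁ (by positivity : 0 ≤ 10 * 64 ^ 4096 * ((y : ℝ) / Real.log y))
    have hc₂ := mul_le_mul_of_nonneg_left hb₂ (by positivity : 0 ≤ 5 * ((y : ℝ) / Real.log y))
    have hd₁ : 0 ≤ (M + 1) * ((y : ℝ) / Real.log y) := by positivity
    calc _ ≤ 10 * 64 ^ 4096 * ((y : ℝ) / Real.log y) * Z₁ + 5 * ((y : ℝ) / Real.log y) * Z₂ :=
          add_le_add hc₁ hc₂
      _ ≤ 10 * 64 ^ 4096 * ((y : ℝ) / Real.log y) * Z₁ + 5 * ((y : ℝ) / Real.log y) * Z₂ +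
            (M + 1) * ((y : ℝ) / Real.log y) := by linarith
      _ = _ := by ring

/-- the average of the sixth power of `u(q) / φ(u(q))` -/
theorem avg_rr (u : ℕ → ℕ) (hu0 : ∀ q, 1 ≤ q → 0 < u q) (hu4 : ∀ q, 1 ≤ q → u q ≤ 4 * q)
    (hu : ∀ d q q' : ℕ, 1 ≤ q → 1 ≤ q' → d ∣ u q → d ∣ u q' → q ≡ q' [MOD d]) :
    ∃ C : ℝ, 0 < C ∧ ∀ y : ℕ, 2 ≤ y →
      ∑ q ∈ (Icc 1 y).filter Nat.Prime, (rr (u q)) ^ 6 ≤ C * ((y : ℝ) / Real.log y) := by
  obtain ⟨C, hC, h⟩ := avg u hu0 hu4 hu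
  refine ⟨64 ^ 28561 * C, by positivity, ?_⟩
  intro y hy
  calc ∑ q ∈ (Icc 1 y).filter Nat.Prime, (rr (u q)) ^ 6
      ≤ ∑ q ∈ (Icc 1 y).filter Nat.Prime,
          64 ^ 28561 * ∑ d ∈ (u q).divisors, (d : ℝ) ^ (-(3 / 4) : ℝ) := by
        apply Finset.sum_le_sum
        intro q hq
        rw [mem_filter, mem_Icc] at hq
        exact rr_le_sum _ (hu0 q hq.1.1)
    _ = 64 ^ 28561 * ∑ q ∈ (Icc 1 y).filter Nat.Prime, ∑ d ∈ (u q).divisors, (d : ℝ) ^ (-(3 / 4) : ℝ) := by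
        rw [Finset.mul_sum]
    _ ≤ 64 ^ 28561 * (C * ((y : ℝ) / Real.log y)) :=
        mul_le_mul_of_nonneg_left (h y hy) (by positivity)
    _ = _ := by ring

end Pool.Agent.Lib.MP_3063eb_nt
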