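import Pool.Agent.Lib.MP_3063eb_nt.AvgPrime

/-!
# The sieve bound for `m`, `3 (m + q) - 1`, `3 (m + q) + 1`
-/

set_option autoImplicit false

open Finset

namespace Pool.Agent.Lib.MP_3063eb_nt

open Pool.Agent.Lib.MP_dde2f1_nt.Sieve

/-- slopes -/
def fa : Fin 3 → ℤ := ![1, 3, 3]

/-- shifts -/
def fb (q : ℕ) : Fin 3 → ℤ := ![0, 3 * (q : ℤ) - 1, 3 * (q : ℤ) + 1]

lemma fab_ne (q : ℕ) (hq : 1 ≤ q) : ∀ i j : Fin 3, i ≠ j → fa i * fb q j - fa j * fb q i ≠ 0 := by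
  intro i j hij
  fin_cases i <;> fin_cases j <;> simp [fa, fb] at hij ⊢ <;> omega

lemma fa_ne : ∀ i : Fin 3, fa i ≠ 0 := by
  intro i
  fin_cases i <;> simp [fa]

lemma kk_primes (q : ℕ) (hq : 1 ≤ q) (p : ℕ) (hp : p.Prime) (h : p ∣ kk fa (fb q)) :
    p ∣ 6 * ((3 * q - 1) * (3 * q + 1)) := by
  have hcast : ((3 * q - 1 : ℕ) : ℤ) = 3 * (q : ℤ) - 1 := by omega
  have hcast' : ((3 * q + 1 : ℕ) : ℤ) = 3 * (q : ℤ) + 1 := by omega
  unfold kk KK at h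
  rcases (Nat.Prime.dvd_mul hp).1 h with h | h
  · rcases (Nat.Prime.dvd_mul hp).1 h with h | h
    · -- the slopes
      have h9 : (∏ i, fa i).natAbs = 9 := by
        rw [Fin.prod_univ_three]
        rfl
      rw [h9] at h
      have h3 : p ∣ 3 := hp.dvd_of_dvd_pow (n := 2) (by simpa using h)
      exact (h3.trans (by norm_num : 3 ∣ 6)).trans (dvd_mul_right _ _)
    · -- the differences
      have h1 : (p : ℤ) ∣ ∏ x ∈ (univ ×ˢ univ : Finset (Fin 3 × Fin 3)).filter (fun x => x.1 ≠ x.2),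
          (fa x.1 * fb q x.2 - fa x.2 * fb q x.1) := Int.natCast_dvd.2 h
      have hpZ : Prime (p : ℤ) := Nat.prime_iff_prime_int.1 hp
      obtain ⟨x, hx, hd⟩ := (Prime.dvd_finsetProd_iff hpZ _).1 h1
      rw [mem_filter] at hx
      have hne := hx.2
      have key : ∀ t : ℕ, (p : ℤ) ∣ (t : ℤ) → t ∣ 6 * ((3 * q - 1) * (3 * q + 1)) →
          p ∣ 6 * ((3 * q - 1) * (3 * q + 1)) := by
        intro t ht ht'
        exact (Int.natCast_dvd_natCast.1 ht).trans ht'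
      have d1 : (3 * q - 1) ∣ 6 * ((3 * q - 1) * (3 * q + 1)) := ⟨6 * (3 * q + 1), by ring⟩
      have d2 : (3 * q + 1) ∣ 6 * ((3 * q - 1) * (3 * q + 1)) := ⟨6 * (3 * q - 1), by ring⟩
      have d3 : 6 ∣ 6 * ((3 * q - 1) * (3 * q + 1)) := ⟨_, rfl⟩
      obtain ⟨i, j⟩ := x
      fin_cases i <;> fin_cases j <;> simp [fa, fb] at hd hne
      · exact key (3 * q - 1) (by rw [hcast]; exact hd) d1
      · exact key (3 * q + 1) (by rw [hcast']; exact hd) d2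
      · apply key (3 * q - 1) _ d1
        rw [hcast]
        have : (p : ℤ) ∣ -(3 * (q : ℤ) - 1) := by
          have e : -(3 * (q : ℤ) - 1) = 1 - 3 * q := by ring
          rw [e]; exact hd
        exact (dvd_neg.1 this)
      · apply key 6 _ d3
        have e : ((6 : ℕ) : ℤ) = 3 * (3 * (q : ℤ) + 1) - 3 * (3 * q - 1) := by push_cast; ring
        rw [e]; exact hd
      · apply key (3 * q + 1) _ d2
        rw [hcast']
        have : (p : ℤ) ∣ -(3 * (q : ℤ) + 1) := by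
          have e : -(3 * (q : ℤ) + 1) = -1 + -(3 * (q : ℤ)) := by ring
          rw [e]; exact hd
        exact (dvd_neg.1 this)
      · apply key 6 _ d3
        have : (p : ℤ) ∣ -(((6 : ℕ) : ℤ)) := by
          have e : -(((6 : ℕ) : ℤ)) = 3 * (3 * (q : ℤ) - 1) - 3 * (3 * q + 1) := by push_cast; ring
          rw [e]; exact hd
        exact (dvd_neg.1 this)
  · have : p ∣ 6 := by simpa [Nat.factorial] using h
    exact this.trans (dvd_mul_right _ _)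

lemma kk_pos (q : ℕ) (hq : 1 ≤ q) : 0 < kk fa (fb q) := by
  unfold kk KK
  apply Nat.pos_of_ne_zero
  apply mul_ne_zero _ (Nat.factorial_ne_zero _)
  apply mul_ne_zero
  · rw [Int.natAbs_ne_zero]
    exact prod_ne_zero_iff.2 (fun i _ => fa_ne i)
  · rw [Int.natAbs_ne_zero]
    apply prod_ne_zero_iff.2
    intro x hx
    rw [mem_filter] at hx
    exact fab_ne q hq _ _ hx.2

lemma rr_kk (q : ℕ) (hq : 1 ≤ q) :
    (rr (kk fa (fb q))) ^ 3 ≤ 14 * ((rr (3 * q - 1)) ^ 6 + (rr (3 * q + 1)) ^ 6) := by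
  have h1 : 0 < 3 * q - 1 := by omega
  have h2 : 0 < 3 * q + 1 := by omega
  have h6 : rr 6 = 3 := by
    unfold rr
    have : Nat.totient 6 = 2 := by decide
    rw [this]
    norm_num
  have ha := rr_mono (kk_pos q hq) (n := 6 * ((3 * q - 1) * (3 * q + 1))) (by positivity) (by
    intro p hp
    have hpp := Nat.prime_of_mem_primeFactors hp
    rw [Nat.mem_primeFactors]
    exact ⟨hpp, kk_primes q hq p hpp (Nat.dvd_of_mem_primeFactors hp), by positivity⟩)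
  have hb := rr_mul_le (m := 6) (n := (3 * q - 1) * (3 * q + 1)) (by norm_num) (by positivity)
  have hc := rr_mul_le (m := 3 * q - 1) (n := 3 * q + 1) h1 h2
  have g1 := rr_ge_one (3 * q - 1) h1
  have g2 := rr_ge_one (3 * q + 1) h2
  have g0 := rr_ge_one _ (kk_pos q hq)
  set A := rr (3 * q - 1)
  set B := rr (3 * q + 1)
  have h : rr (kk fa (fb q)) ≤ 3 * (A * B) := by
    calc rr (kk fa (fb q)) ≤ rr 6 * rr ((3 * q - 1) * (3 * q + 1)) := ha.trans hb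
      _ ≤ 3 * (A * B) := by
          rw [h6]
          linarith
  calc (rr (kk fa (fb q))) ^ 3 ≤ (3 * (A * B)) ^ 3 := by gcongr
    _ = 27 * (A ^ 3 * B ^ 3) := by ring
    _ ≤ 14 * (A ^ 6 + B ^ 6) := by
        nlinarith [sq_nonneg (A ^ 3 - B ^ 3), pow_pos (by linarith : 0 < A) 6, pow_pos (by linarith : 0 < B) 6]

/-- the sieve bound for one `q` -/
theorem sieve_one (q X : ℕ) (hq : 1 ≤ q) (hX : 2 ≤ X) :
    (((Icc 1 X).filter (fun m => m.Prime ∧ (3 * (m + q) - 1).Prime ∧ (3 * (m + q) + 1).Prime)).card : ℝ) ≤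
      200000 * ((rr (3 * q - 1)) ^ 6 + (rr (3 * q + 1)) ^ 6) * ((X : ℝ) / (Real.log X) ^ 3) := by
  classical
  have hXR : (2 : ℝ) ≤ X := by exact_mod_cast hX
  have hX0 : (0 : ℝ) < X := by linarith
  have hlogX : 0 < Real.log X := Real.log_pos (by linarith)
  set y := ⌊(X : ℝ) ^ (1 / 24 : ℝ)⌋₊ with hy
  have h1 : (1 : ℝ) ≤ (X : ℝ) ^ (1 / 24 : ℝ) := Real.one_le_rpow (by linarith) (by norm_num)
  have hy1 : 1 ≤ y := Nat.le_floor (by exact_mod_cast h1)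
  have hyR1 : (1 : ℝ) ≤ y := by exact_mod_cast hy1
  have hyX : (y : ℝ) ≤ (X : ℝ) ^ (1 / 24 : ℝ) := Nat.floor_le (by positivity)
  have hXy : (X : ℝ) ^ (1 / 24 : ℝ) < (y : ℝ) + 1 := Nat.lt_floor_add_one _
  have hlog : Real.log X / 24 ≤ Real.log ((y : ℝ) + 1) := by
    have h2 : Real.log ((X : ℝ) ^ (1 / 24 : ℝ)) ≤ Real.log ((y : ℝ) + 1) :=
      Real.log_le_log (by positivity) hXy.le
    rw [Real.log_rpow hX0] at h2
    linarith
  have hy12 : (y : ℝ) ^ 12 ≤ (X : ℝ) ^ (1 / 2 : ℝ) := by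
    calc (y : ℝ) ^ 12 ≤ ((X : ℝ) ^ (1 / 24 : ℝ)) ^ 12 := by gcongr
      _ = (X : ℝ) ^ (1 / 2 : ℝ) := by
          rw [← Real.rpow_natCast, ← Real.rpow_mul hX0.le]
          norm_num
  have hXhalf : (X : ℝ) ^ (1 / 2 : ℝ) ≤ 216 * ((X : ℝ) / (Real.log X) ^ 3) := by
    have h3 : Real.log X ≤ (X : ℝ) ^ (1 / 6 : ℝ) / (1 / 6) := Real.log_le_rpow_div hX0.le (by norm_num)
    have h4 : Real.log X ≤ 6 * (X : ℝ) ^ (1 / 6 : ℝ) := by linarith
    have h5 : (Real.log X) ^ 3 ≤ 216 * (X : ℝ) ^ (1 / 2 : ℝ) := by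
      calc (Real.log X) ^ 3 ≤ (6 * (X : ℝ) ^ (1 / 6 : ℝ)) ^ 3 := by gcongr
        _ = 216 * (((X : ℝ) ^ (1 / 6 : ℝ)) ^ 3) := by ring
        _ = 216 * (X : ℝ) ^ (1 / 2 : ℝ) := by
            rw [← Real.rpow_natCast, ← Real.rpow_mul hX0.le]
            norm_num
    have h6 : (X : ℝ) = (X : ℝ) ^ (1 / 2 : ℝ) * (X : ℝ) ^ (1 / 2 : ℝ) := by
      rw [← Real.rpow_add hX0]
      norm_num
    have h7 : (0 : ℝ) < (Real.log X) ^ 3 := by positivity
    rw [← mul_div_assoc, le_div_iff₀ h7]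
    have h8 : 0 ≤ (X : ℝ) ^ (1 / 2 : ℝ) := by positivity
    calc (X : ℝ) ^ (1 / 2 : ℝ) * (Real.log X) ^ 3 ≤ (X : ℝ) ^ (1 / 2 : ℝ) * (216 * (X : ℝ) ^ (1 / 2 : ℝ)) :=
          mul_le_mul_of_nonneg_left h5 h8
      _ = 216 * ((X : ℝ) ^ (1 / 2 : ℝ) * (X : ℝ) ^ (1 / 2 : ℝ)) := by ring
      _ = 216 * X := by rw [← h6]
  -- the tuple bound
  have ht := tuple_explicit fa (fb q) (by norm_num : 0 < 3) fa_ne (fab_ne q hq) X y hy1
  have hsub : (Icc 1 X).filter (fun m => m.Prime ∧ (3 * (m + q) - 1).Prime ∧ (3 * (m + q) + 1).Prime) ⊆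
      (Icc 1 X).filter (fun m : ℕ => ∀ i, (fa i * m + fb q i).natAbs.Prime) := by
    intro m hm
    rw [mem_filter, mem_Icc] at hm
    rw [mem_filter, mem_Icc]
    refine ⟨hm.1, ?_⟩
    intro i
    have e1 : (3 * (m : ℤ) + (3 * (q : ℤ) - 1)).natAbs = 3 * (m + q) - 1 := by omega
    have e2 : (3 * (m : ℤ) + (3 * (q : ℤ) + 1)).natAbs = 3 * (m + q) + 1 := by omega
    fin_cases i
    · simpa [fa, fb] using hm.2.1
    · simp only [fa, fb]
      show (3 * (m : ℤ) + (3 * (q : ℤ) - 1)).natAbs.Prime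
      rw [e1]; exact hm.2.2.1
    · simp only [fa, fb]
      show (3 * (m : ℤ) + (3 * (q : ℤ) + 1)).natAbs.Prime
      rw [e2]; exact hm.2.2.2
  have hcard : (((Icc 1 X).filter (fun m => m.Prime ∧ (3 * (m + q) - 1).Prime ∧
      (3 * (m + q) + 1).Prime)).card : ℝ) ≤
      (((Icc 1 X).filter (fun m : ℕ => ∀ i, (fa i * m + fb q i).natAbs.Prime)).card : ℝ) := by
    exact_mod_cast Finset.card_le_card hsub
  refine hcard.trans (ht.trans ?_)
  have hR := rr_kk q hq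
  have g1 := rr_ge_one (3 * q - 1) (by omega)
  have g2 := rr_ge_one (3 * q + 1) (by omega)
  have g0 := rr_ge_one _ (kk_pos q hq)
  have hrr : (((kk fa (fb q) : ℕ) : ℝ) / (kk fa (fb q)).totient) = rr (kk fa (fb q)) := rfl
  rw [hrr]
  set R := rr (kk fa (fb q))
  set S := (rr (3 * q - 1)) ^ 6 + (rr (3 * q + 1)) ^ 6 with hS
  have hS2 : 2 ≤ S := by
    have e1 : 1 ≤ (rr (3 * q - 1)) ^ 6 := one_le_pow₀ g1
    have e2 : 1 ≤ (rr (3 * q + 1)) ^ 6 := one_le_pow₀ g2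
    linarith
  set W := (X : ℝ) / (Real.log X) ^ 3 with hW
  have hW0 : 0 < W := by positivity
  have hmain : (X : ℝ) * R ^ 3 / (Real.log ((y : ℝ) + 1)) ^ 3 ≤ 13824 * (14 * S) * W := by
    have e1 : (Real.log X / 24) ^ 3 ≤ (Real.log ((y : ℝ) + 1)) ^ 3 := by gcongr
    calc (X : ℝ) * R ^ 3 / (Real.log ((y : ℝ) + 1)) ^ 3 ≤ (X : ℝ) * R ^ 3 / (Real.log X / 24) ^ 3 := by
          apply div_le_div_of_nonneg_left (by positivity) (by positivity) e1
      _ = 13824 * R ^ 3 * W := by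
          rw [hW]
          field_simp
          norm_num
      _ ≤ 13824 * (14 * S) * W := by gcongr
  have hsmall : ((3 : ℕ) : ℝ) * (2 * (y : ℝ) ^ 3 + 1) + (y : ℝ) ^ (4 * 3) ≤ 2160 * W := by
    have e1 : (y : ℝ) ^ 3 ≤ (y : ℝ) ^ 12 := pow_le_pow_right₀ hyR1 (by norm_num)
    have e2 : (1 : ℝ) ≤ (y : ℝ) ^ 12 := one_le_pow₀ hyR1
    have e3 : (y : ℝ) ^ (4 * 3) = (y : ℝ) ^ 12 := by norm_num
    rw [e3]
    push_cast
    linarith
  have hfin : 2160 * W ≤ 1080 * S * W := by nlinarith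
  have hSW : 0 ≤ S * W := by positivity
  calc ((3 : ℕ) : ℝ) * (2 * (y : ℝ) ^ 3 + 1) + (X : ℝ) * R ^ 3 / (Real.log ((y : ℝ) + 1)) ^ 3 +
        (y : ℝ) ^ (4 * 3) = (((3 : ℕ) : ℝ) * (2 * (y : ℝ) ^ 3 + 1) + (y : ℝ) ^ (4 * 3)) +
          (X : ℝ) * R ^ 3 / (Real.log ((y : ℝ) + 1)) ^ 3 := by ring
    _ ≤ 2160 * W + 13824 * (14 * S) * W := add_le_add hsmall hmain
    _ ≤ 1080 * S * W + 13824 * (14 * S) * W := by linarith
    _ = 194616 * (S * W) := by ring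
    _ ≤ 200000 * (S * W) := by linarith
    _ = 200000 * S * W := by ring

end Pool.Agent.Lib.MP_3063eb_nt
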